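import Pool.Agent.X31.BK.Stm

set_option autoImplicit false

namespace Pool.Agent.X31.BK

open Filter Topology Set Metric

theorem G2_nhds {a b : ℂ} (ha : ‖a‖ < 1) (hb : ‖b‖ < 1) : G2 ∈ 𝓝 ((a + b, a * b) : ℂ × ℂ) := by
  set w0 : ℂ × ℂ := (a + b, a * b) with hw0
  set M : ℝ := ‖w0‖ + 1 with hM
  set Z : Set ((ℂ × ℂ) × ℂ) := {q | ‖q.1‖ ≤ M ∧ 1 ≤ ‖q.2‖ ∧ ‖q.2‖ ≤ 2 * M ∧
    q.2 ^ 2 - q.1.1 * q.2 + q.1.2 = 0} with hZ
  have hZc : IsCompact Z := by
    have hcl : IsClosed Z := by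
      refine IsClosed.and (isClosed_le (by fun_prop) (by fun_prop)) ?_
      refine IsClosed.and (isClosed_le (by fun_prop) (by fun_prop)) ?_
      refine IsClosed.and (isClosed_le (by fun_prop) (by fun_prop)) ?_
      exact isClosed_eq (by fun_prop) (by fun_prop)
    refine IsCompact.of_isClosed_subset
      ((isCompact_closedBall (0 : ℂ × ℂ) M).prod (isCompact_closedBall (0 : ℂ) (2 * M))) hcl ?_
    rintro q ⟨h1, h2, h3, h4⟩
    exact ⟨by simpa using h1, by simpa using h3⟩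
  have hK : IsCompact (Prod.fst '' Z) := hZc.image continuous_fst
  have hw : w0 ∉ Prod.fst '' Z := by
    rintro ⟨q, ⟨h1, h2, h3, h4⟩, h5⟩
    have h6 : (q.2 - a) * (q.2 - b) = 0 := by
      rw [h5] at h4
      simp only [hw0] at h4
      linear_combination h4
    rcases mul_eq_zero.1 h6 with h | h
    · have : q.2 = a := by linear_combination h
      rw [this] at h2; linarith
    · have : q.2 = b := by linear_combination h
      rw [this] at h2; linarith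
  have hn : (Prod.fst '' Z)ᶜ ∩ ball 0 M ∈ 𝓝 w0 :=
    inter_mem (hK.isClosed.isOpen_compl.mem_nhds hw)
      (isOpen_ball.mem_nhds (by simp [hM]))
  refine mem_of_superset hn ?_
  rintro w ⟨h1, h2⟩
  have hwM : ‖w‖ < M := by simpa using h2
  have hM1 : 1 ≤ M := by rw [hM]; linarith [norm_nonneg w0]
  have root : ∀ c : ℂ, c ^ 2 - w.1 * c + w.2 = 0 → ‖c‖ < 1 := by
    intro c hc
    by_contra hcon
    push Not at hcon
    refine h1 ⟨(w, c), ⟨hwM.le, hcon, ?_, hc⟩, rfl⟩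
    have e1 : c ^ 2 = w.1 * c - w.2 := by linear_combination hc
    have e2 := congrArg norm e1
    rw [norm_pow] at e2
    have e3 : ‖w.1 * c - w.2‖ ≤ ‖w‖ * ‖c‖ + ‖w‖ := by
      refine (norm_sub_le _ _).trans ?_
      rw [norm_mul]
      have f1 := norm_fst_le w
      have f2 := norm_snd_le w
      nlinarith [norm_nonneg c]
    simp only
    nlinarith [norm_nonneg c, norm_nonneg w]
  obtain ⟨δ, hδ⟩ := IsAlgClosed.exists_pow_nat_eq (w.1 ^ 2 - 4 * w.2) (n := 2) (by norm_num)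
  refine ⟨(w.1 + δ) / 2, (w.1 - δ) / 2, root _ ?_, root _ ?_, ?_⟩
  · linear_combination hδ / 4
  · linear_combination hδ / 4
  · apply Prod.ext
    · simp only; ring
    · simp only
      linear_combination hδ / 4

theorem frontier_param {p : ℂ × ℂ} (hp : p ∈ frontier G2)
    (hS : p ∉ {w : ℂ × ℂ | ∃ a b : ℂ, ‖a‖ = 1 ∧ ‖b‖ = 1 ∧ w = (a + b, a * b)}) :
    ∃ τ lam : ℂ, ‖τ‖ = 1 ∧ ‖lam‖ < 1 ∧ p = (τ + lam, τ * lam) := by
  have hcl : p ∈ (fun q : ℂ × ℂ => (q.1 + q.2, q.1 * q.2)) ''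
      (closedBall (0 : ℂ) 1 ×ˢ closedBall (0 : ℂ) 1) := by
    have hc : IsCompact ((fun q : ℂ × ℂ => (q.1 + q.2, q.1 * q.2)) ''
      (closedBall (0 : ℂ) 1 ×ˢ closedBall (0 : ℂ) 1)) :=
      ((isCompact_closedBall _ _).prod (isCompact_closedBall _ _)).image (by fun_prop)
    refine closure_minimal ?_ hc.isClosed (frontier_subset_closure hp)
    rintro w ⟨a, b, ha, hb, rfl⟩
    exact ⟨(a, b), ⟨by simpa using ha.le, by simpa using hb.le⟩, rfl⟩
  obtain ⟨⟨a, b⟩, ⟨ha, hb⟩, rfl⟩ := hcl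
  simp only [mem_closedBall_zero_iff] at ha hb
  have hni : ¬ (‖a‖ < 1 ∧ ‖b‖ < 1) := by
    rintro ⟨h1, h2⟩
    exact hp.2 (mem_interior_iff_mem_nhds.2 (G2_nhds h1 h2))
  rcases ha.lt_or_eq with h1 | h1
  · rcases hb.lt_or_eq with h2 | h2
    · exact absurd ⟨h1, h2⟩ hni
    · exact ⟨b, a, h2, h1, by simp only; rw [add_comm, mul_comm]⟩
  · rcases hb.lt_or_eq with h2 | h2
    · exact ⟨a, b, h1, h2, rfl⟩
    · exact absurd ⟨a, b, h1, h2, rfl⟩ hS

end Pool.Agent.X31.BK
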