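import Mathlib

/-! MP_f98e31_an (Burns-Krantz on the symmetrized bidisc at smooth boundary points): definitions. -/

set_option autoImplicit false

namespace Pool.Agent.X31.BK

open Filter Topology Set Asymptotics

/-- the symmetrized bidisc -/
def G2 : Set (ℂ × ℂ) := {w | ∃ a b : ℂ, ‖a‖ < 1 ∧ ‖b‖ < 1 ∧ w = (a + b, a * b)}

/-- half-plane form of the magic function belonging to `τ`: for `w = (a+b, ab)` it is
`i(τ+a)/(τ-a) + i(τ+b)/(τ-b)` -/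
noncomputable def K (τ : ℂ) (w : ℂ × ℂ) : ℂ :=
  2 * Complex.I * (τ ^ 2 - w.2) / (τ ^ 2 - τ * w.1 + w.2)

/-- the point of the disc on the ray to `τ` with half-plane coordinate `iT` -/
noncomputable def zT (τ : ℂ) (T : ℝ) : ℂ := τ * ((T - 1) / (T + 1))

/-- ASY: `‖w_T - p‖ ≤ 4/T`, `D = τ² - τ s + p` satisfies `T D(w_T) → 2 τ (τ - lam) ≠ 0`, and
`T (K(F w_T) - K(w_T)) = T³ (D δN - N δD) / ((T (D+δD)) (T D))` with `δN, δD = o(T^-3)`. -/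
def S_ASY : Prop := ∀ (F : ℂ × ℂ → ℂ × ℂ) (τ lam : ℂ), ‖τ‖ = 1 → ‖lam‖ < 1 →
  (fun w => F w - w) =o[𝓝[G2] (τ + lam, τ * lam)] (fun w => ‖w - (τ + lam, τ * lam)‖ ^ 3) →
  Tendsto (fun T : ℝ => (T : ℂ) * (K τ (F (zT τ T + lam, zT τ T * lam)) -
    K τ (zT τ T + lam, zT τ T * lam))) atTop (𝓝 0)

end Pool.Agent.X31.BK
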