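import Pool.Agent.X31.BK.Fin
import Pool.Agent.X162.BK.Asy

set_option autoImplicit false

namespace Pool.Agent.X31.BK

open Filter Topology Set Complex Metric ComplexConjugate Asymptotics

/-- second half, by helper197 -/
def S_ST2 : Prop := ∀ (Y : ℂ → ℂ → ℂ),
  (∀ w2 : ℂ, 0 < w2.re → DifferentiableOn ℂ (fun w1 => Y w1 w2) {w | 0 < w.re}) →
  (∀ w1 w2 : ℂ, 0 < w1.re → 0 < w2.re → Y w1 w2 = Y w2 w1) →
  (∀ w1 w2 : ℂ, 0 < w1.re → 0 < w2.re → ∃ u1 u2 : ℂ, 0 < u1.re ∧ 0 < u2.re ∧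
    u1 + u2 = w1 + w2 ∧ u1 * u2 = Y w1 w2) →
  Tendsto (fun x : ℝ => (x : ℂ) ^ 2 * (Y x 1 - x)) atTop (𝓝 0) →
  ∀ w1 w2 : ℂ, 0 < w1.re → 0 < w2.re → Y w1 w2 = w1 * w2

theorem cc_zc {τ η : ℂ} (hτ : ‖τ‖ = 1) (h : 0 < η.im) : cc τ (zc τ η) = η := by
  have h1 := addI_ne h
  have h2 := tau_sub_ne hτ (zc_lt hτ h)
  have h0 : τ ≠ 0 := by intro h; rw [h] at hτ; simp at hτ
  rw [cc, div_eq_iff h2, zc]
  field_simp
  ring

/-- the product of the half plane coordinates -/
noncomputable def P (τ : ℂ) (w : ℂ × ℂ) : ℂ :=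
  -(τ ^ 2 + τ * w.1 + w.2) / (τ ^ 2 - τ * w.1 + w.2)

theorem P_eq {τ a b : ℂ} (hτ : ‖τ‖ = 1) (ha : ‖a‖ < 1) (hb : ‖b‖ < 1) :
    P τ (a + b, a * b) = cc τ a * cc τ b := by
  have h1 := tau_sub_ne hτ ha
  have h2 := tau_sub_ne hτ hb
  simp only [P, cc, den_eq]
  field_simp
  linear_combination (-(τ + a) * (τ + b)) * I_sq

theorem P_diff {τ : ℂ} (hτ : ‖τ‖ = 1) : DifferentiableOn ℂ (P τ) G2 := by
  unfold P
  refine dOn_div (by fun_prop) (by fun_prop) ?_
  rintro w ⟨x, y, hx, hy, rfl⟩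
  simp only
  rw [den_eq]
  exact mul_ne_zero (tau_sub_ne hτ hx) (tau_sub_ne hτ hy)

theorem P_sub {τ : ℂ} (hτ : ‖τ‖ = 1) {w w' : ℂ × ℂ} (hw : w ∈ G2) (hw' : w' ∈ G2)
    (hK : K τ w' = K τ w) :
    P τ w' - P τ w = (I * K τ w) * (2 * τ ^ 2) * (w'.2 - w.2) /
      ((τ ^ 2 - w'.2) * (τ ^ 2 - w.2)) := by
  obtain ⟨a, b, ha, hb, rfl⟩ := hw
  obtain ⟨x, y, hx, hy, rfl⟩ := hw'
  have d1 : τ ^ 2 - τ * (a + b) + a * b ≠ 0 := by
    rw [den_eq]; exact mul_ne_zero (tau_sub_ne hτ ha) (tau_sub_ne hτ hb)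
  have d2 : τ ^ 2 - τ * (x + y) + x * y ≠ 0 := by
    rw [den_eq]; exact mul_ne_zero (tau_sub_ne hτ hx) (tau_sub_ne hτ hy)
  have n1 : τ ^ 2 - a * b ≠ 0 := by
    intro h
    have h1 : τ ^ 2 = a * b := by linear_combination h
    have h2 := congrArg norm h1
    rw [norm_pow, hτ, norm_mul] at h2
    nlinarith [norm_nonneg a, norm_nonneg b]
  have n2 : τ ^ 2 - x * y ≠ 0 := by
    intro h
    have h1 : τ ^ 2 = x * y := by linear_combination h
    have h2 := congrArg norm h1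
    rw [norm_pow, hτ, norm_mul] at h2
    nlinarith [norm_nonneg x, norm_nonneg y]
  have q1 : P τ (a + b, a * b) = 1 + I * K τ (a + b, a * b) * (τ ^ 2 + a * b) / (τ ^ 2 - a * b) := by
    simp only [P, K]
    generalize hD : τ ^ 2 - τ * (a + b) + a * b = D at d1 ⊢
    field_simp
    linear_combination hD + (-2 * (τ ^ 2 + a * b)) * I_sq
  have q2 : P τ (x + y, x * y) = 1 + I * K τ (x + y, x * y) * (τ ^ 2 + x * y) / (τ ^ 2 - x * y) := by
    simp only [P, K]
    generalize hD : τ ^ 2 - τ * (x + y) + x * y = D at d2 ⊢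
    field_simp
    linear_combination hD + (-2 * (τ ^ 2 + x * y)) * I_sq
  rw [q1, q2, hK]
  simp only
  field_simp
  ring

/-- the affine map from the right half plane to the upper one -/
noncomputable def af (μ w : ℂ) : ℂ := μ.re + I * μ.im * w

theorem af_im {μ w : ℂ} (hμ : 0 < μ.im) (hw : 0 < w.re) : 0 < (af μ w).im := by
  have : (af μ w).im = μ.im * w.re := by
    simp [af]
  rw [this]
  positivity

theorem af_one (μ : ℂ) : af μ 1 = μ := by
  apply Complex.ext <;> simp [af]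

/-- the limit needed for the second half -/
theorem bk_lim (F : ℂ × ℂ → ℂ × ℂ) (hF : DifferentiableOn ℂ F G2)
    (hm : MapsTo F G2 G2) (τ lam : ℂ) (hτ : ‖τ‖ = 1) (hlam : ‖lam‖ < 1)
    (ho : (fun w => F w - w) =o[𝓝[G2] (τ + lam, τ * lam)]
      (fun w => ‖w - (τ + lam, τ * lam)‖ ^ 3)) :
    Tendsto (fun x : ℝ => (x : ℂ) ^ 2 *
      (P τ (F (zc τ (af (cc τ lam) x) + lam, zc τ (af (cc τ lam) x) * lam)) -
        P τ (zc τ (af (cc τ lam) x) + lam, zc τ (af (cc τ lam) x) * lam))) atTop (𝓝 0) := by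
  have hμ := cc_im hτ hlam
  set μ := cc τ lam with hμd
  set m := μ.im with hmd
  have hτ0 : τ ≠ 0 := by
    intro h; rw [h, norm_zero] at hτ; norm_num at hτ
  have hne := tau_sub_ne hτ hlam
  set z : ℝ → ℂ := fun x => zc τ (af μ x) with hz
  have hzlt : ∀ x : ℝ, 0 < x → ‖z x‖ < 1 := fun x hx => zc_lt hτ (af_im hμ (by simpa using hx))
  have hznorm : ∀ x : ℝ, 0 < x → ‖z x - τ‖ ≤ 2 / (m * x) := by
    intro x hx
    have h1 := af_im (w := (x : ℂ)) hμ (by simpa using hx)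
    have h2 := addI_ne h1
    have e1 : z x - τ = -(τ * (2 * I / (af μ x + I))) := by
      simp only [hz, zc]
      field_simp
      ring
    have e2 : m * x ≤ ‖af μ x + I‖ := by
      have h3 := abs_im_le_norm (af μ x + I)
      have h4 : (af μ x + I).im = m * x + 1 := by simp [af, hmd]
      rw [h4] at h3
      have h5 : 0 < m * x := by positivity
      rw [abs_of_pos (by linarith)] at h3
      linarith
    rw [e1, norm_neg, norm_mul, hτ, one_mul, norm_div]
    have e3 : ‖2 * I‖ = 2 := by simp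
    rw [e3]
    exact div_le_div_of_nonneg_left (by norm_num) (by positivity) e2
  set a : ℝ → ℂ × ℂ := fun x => (z x + lam, z x * lam) with ha
  set p : ℂ × ℂ := (τ + lam, τ * lam) with hp
  have hnorm : ∀ x : ℝ, 0 < x → ‖a x - p‖ ≤ 2 / (m * x) := by
    intro x hx
    have h0 := hznorm x hx
    rw [Prod.norm_def]
    refine max_le ?_ ?_
    · have : (a x - p).1 = z x - τ := by
        simp only [ha, hp, Prod.fst_sub]; ring
      rw [this]; exact h0
    · have : (a x - p).2 = (z x - τ) * lam := by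
        simp only [ha, hp, Prod.snd_sub]; ring
      rw [this, norm_mul]
      nlinarith [norm_nonneg lam, norm_nonneg (z x - τ)]
  have h1 : Tendsto (fun x : ℝ => 2 / (m * x)) atTop (𝓝 0) :=
    tendsto_const_nhds.div_atTop (tendsto_id.const_mul_atTop hμ)
  have hap : Tendsto a atTop (𝓝 p) := by
    rw [tendsto_iff_norm_sub_tendsto_zero]
    refine squeeze_zero' (Eventually.of_forall fun x => norm_nonneg _) ?_ h1
    filter_upwards [eventually_gt_atTop 0] with x hx using hnorm x hx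
  have haG : ∀ᶠ x in atTop, a x ∈ G2 := by
    filter_upwards [eventually_gt_atTop 0] with x hx
    exact ⟨z x, lam, hzlt x hx, hlam, rfl⟩
  have hF2 := ho.comp_tendsto (tendsto_nhdsWithin_iff.mpr ⟨hap, haG⟩)
  set δ : ℝ → ℂ × ℂ := fun x => F (a x) - a x with hδ
  have hδ3 : Tendsto (fun x : ℝ => ((x : ℂ) ^ 3) • δ x) atTop (𝓝 0) := by
    rw [tendsto_zero_iff_norm_tendsto_zero]
    rw [Metric.tendsto_nhds]
    intro ε hε
    have h3 := hF2.def (show (0 : ℝ) < ε * m ^ 3 / 16 by positivity)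
    filter_upwards [h3, eventually_gt_atTop 0] with x hx3 hx
    rw [dist_zero_right, Real.norm_eq_abs, abs_of_nonneg (norm_nonneg _), norm_smul, norm_pow,
      Complex.norm_real, Real.norm_eq_abs, abs_of_pos hx]
    have e1 : ‖δ x‖ ≤ ε * m ^ 3 / 16 * ‖a x - p‖ ^ 3 := by
      have := hx3
      simp only [Function.comp, norm_pow, norm_norm] at this
      exact this
    have e2 : ‖a x - p‖ ^ 3 ≤ (2 / (m * x)) ^ 3 := by
      gcongr
      exact hnorm x hx
    calc x ^ 3 * ‖δ x‖ ≤ x ^ 3 * (ε * m ^ 3 / 16 * (2 / (m * x)) ^ 3) := by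
          gcongr
          exact e1.trans (by gcongr)
      _ = ε / 2 := by field_simp; norm_num
      _ < ε := by linarith
  have d2 : Tendsto (fun x : ℝ => ((x : ℂ) ^ 3) * (δ x).2) atTop (𝓝 0) := by
    have := (continuous_snd.tendsto (0 : ℂ × ℂ)).comp hδ3
    simpa [Function.comp_def] using this
  have hinv : Tendsto (fun x : ℝ => ((x : ℂ) ^ 3)⁻¹) atTop (𝓝 0) := by
    have h2 : Tendsto (fun x : ℝ => (x ^ 3)⁻¹) atTop (𝓝 0) :=
      (tendsto_pow_atTop (by norm_num)).inv_tendsto_atTop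
    have := (Complex.continuous_ofReal.tendsto 0).comp h2
    refine (this.congr fun x => ?_).trans (by simp)
    simp
  have d3 : Tendsto (fun x : ℝ => (δ x).2) atTop (𝓝 0) := by
    have := d2.mul hinv
    rw [mul_zero] at this
    refine this.congr' ?_
    filter_upwards [eventually_gt_atTop 0] with x hx
    have : (x : ℂ) ≠ 0 := by exact_mod_cast hx.ne'
    field_simp
  have ap2 : Tendsto (fun x : ℝ => (a x).2) atTop (𝓝 (τ * lam)) :=
    (continuous_snd.tendsto p).comp hap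
  have Fp2 : Tendsto (fun x : ℝ => (F (a x)).2) atTop (𝓝 (τ * lam)) := by
    have := d3.add ap2
    rw [zero_add] at this
    refine this.congr fun x => ?_
    simp [hδ]
  have hN : τ ^ 2 - τ * lam ≠ 0 := by
    have : τ ^ 2 - τ * lam = τ * (τ - lam) := by ring
    rw [this]
    exact mul_ne_zero hτ0 hne
  have hKx : Tendsto (fun x : ℝ => (af μ x + μ) / x) atTop (𝓝 (I * m)) := by
    have h2 := (t0 (μ.re + μ)).add_const (I * m)
    rw [zero_add] at h2
    refine h2.congr' ?_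
    filter_upwards [eventually_gt_atTop 0] with x hx
    have : (x : ℂ) ≠ 0 := by exact_mod_cast hx.ne'
    rw [af]
    field_simp
    ring
  have fin : Tendsto (fun x : ℝ => I * ((af μ x + μ) / x) * (2 * τ ^ 2) *
      ((x : ℂ) ^ 3 * (δ x).2) / ((τ ^ 2 - (F (a x)).2) * (τ ^ 2 - (a x).2))) atTop
      (𝓝 (I * (I * m) * (2 * τ ^ 2) * 0 / ((τ ^ 2 - τ * lam) * (τ ^ 2 - τ * lam)))) :=
    (((hKx.const_mul I).mul_const _).mul d2).div
      ((Fp2.const_sub _).mul (ap2.const_sub _)) (mul_ne_zero hN hN)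
  rw [mul_zero, zero_div] at fin
  refine fin.congr' ?_
  filter_upwards [haG, eventually_gt_atTop 0] with x hx hx0
  have hx' : (x : ℂ) ≠ 0 := by exact_mod_cast hx0.ne'
  have hKp := K_pres Pool.Agent.X162.BK.t F hF hm τ lam hτ hlam ho (hzlt x hx0) hlam
  have hPs := P_sub hτ hx (hm hx) hKp
  have hKv : K τ (a x) = af μ x + μ := by
    simp only [ha]
    rw [K_eq hτ (hzlt x hx0) hlam]
    simp only [hz]
    rw [cc_zc hτ (af_im hμ (by simpa using hx0))]
  rw [hPs, hKv]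
  have : (δ x).2 = (F (a x)).2 - (a x).2 := rfl
  rw [this]
  field_simp

/-- the full answer, from the second half -/
theorem full (hST2 : S_ST2) (F : ℂ × ℂ → ℂ × ℂ) (hF : DifferentiableOn ℂ F G2)
    (hm : MapsTo F G2 G2) (τ lam : ℂ) (hτ : ‖τ‖ = 1) (hlam : ‖lam‖ < 1)
    (ho : (fun w => F w - w) =o[𝓝[G2] (τ + lam, τ * lam)]
      (fun w => ‖w - (τ + lam, τ * lam)‖ ^ 3)) :
    ∀ w ∈ G2, F w = w := by
  have hμ := cc_im hτ hlam
  set μ := cc τ lam with hμd
  have hmne : (μ.im : ℂ) ≠ 0 := by exact_mod_cast hμ.ne'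
  have hI : (I : ℂ) ≠ 0 := I_ne_zero
  have hKp : ∀ x y : ℂ, ‖x‖ < 1 → ‖y‖ < 1 → K τ (F (x + y, x * y)) = K τ (x + y, x * y) :=
    fun x y hx hy => K_pres Pool.Agent.X162.BK.t F hF hm τ lam hτ hlam ho hx hy
  set g : ℂ → ℂ → ℂ × ℂ := fun w1 w2 =>
    (zc τ (af μ w1) + zc τ (af μ w2), zc τ (af μ w1) * zc τ (af μ w2)) with hg
  have hzl : ∀ w : ℂ, 0 < w.re → ‖zc τ (af μ w)‖ < 1 := fun w hw => zc_lt hτ (af_im hμ hw)
  have hgG : ∀ w1 w2 : ℂ, 0 < w1.re → 0 < w2.re → g w1 w2 ∈ G2 := fun w1 w2 h1 h2 =>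
    ⟨_, _, hzl w1 h1, hzl w2 h2, rfl⟩
  have hgK : ∀ w1 w2 : ℂ, 0 < w1.re → 0 < w2.re → K τ (F (g w1 w2)) = af μ w1 + af μ w2 := by
    intro w1 w2 h1 h2
    simp only [hg]
    rw [hKp _ _ (hzl w1 h1) (hzl w2 h2), K_eq hτ (hzl w1 h1) (hzl w2 h2),
      cc_zc hτ (af_im hμ h1), cc_zc hτ (af_im hμ h2)]
  have hgP : ∀ w1 w2 : ℂ, 0 < w1.re → 0 < w2.re → P τ (g w1 w2) = af μ w1 * af μ w2 := by
    intro w1 w2 h1 h2
    simp only [hg]
    rw [P_eq hτ (hzl w1 h1) (hzl w2 h2), cc_zc hτ (af_im hμ h1), cc_zc hτ (af_im hμ h2)]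
  set Y : ℂ → ℂ → ℂ := fun w1 w2 =>
    -(P τ (F (g w1 w2)) - μ.re * (af μ w1 + af μ w2) + μ.re ^ 2) / μ.im ^ 2 with hY
  have key := hST2 Y ?_ ?_ ?_ ?_
  · rintro w ⟨x, y, hx, hy, rfl⟩
    -- choose the coordinates
    set w1 : ℂ := (cc τ x - μ.re) / (I * μ.im) with hw1
    set w2 : ℂ := (cc τ y - μ.re) / (I * μ.im) with hw2
    have a1 : af μ w1 = cc τ x := by
      rw [af, hw1]; field_simp; ring
    have a2 : af μ w2 = cc τ y := by
      rw [af, hw2]; field_simp; ring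
    have hre : ∀ η : ℂ, 0 < η.im → 0 < ((η - μ.re) / (I * μ.im)).re := by
      intro η hη
      have : ((η - μ.re) / (I * μ.im)).re = η.im / μ.im := by
        rw [Complex.div_re]
        simp [normSq_apply]
        field_simp
      rw [this]
      positivity
    have r1 : 0 < w1.re := hre _ (cc_im hτ hx)
    have r2 : 0 < w2.re := hre _ (cc_im hτ hy)
    have hk := key w1 w2 r1 r2
    have hgw : g w1 w2 = (x + y, x * y) := by
      simp only [hg]
      rw [a1, a2, zc_cc hτ hx, zc_cc hτ hy]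
    have hPF : P τ (F (x + y, x * y)) = cc τ x * cc τ y := by
      simp only [hY, hgw, a1, a2] at hk
      rw [hw1, hw2] at hk
      field_simp at hk
      linear_combination hk + (P τ (F (x + y, x * y)) - μ.re * (cc τ x + cc τ y) +
        μ.re ^ 2) * I_sq
    have hKF := hKp x y hx hy
    obtain ⟨x', y', hx', hy', hxy⟩ := hm (show (x + y, x * y) ∈ G2 from ⟨x, y, hx, hy, rfl⟩)
    have hPs := P_sub hτ ⟨x, y, hx, hy, rfl⟩ (hm ⟨x, y, hx, hy, rfl⟩) hKF
    rw [hPF, P_eq hτ hx hy, sub_self] at hPs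
    have hK0 : K τ (x + y, x * y) ≠ 0 := by
      rw [K_eq hτ hx hy]
      intro h
      have := congrArg Complex.im h
      rw [add_im] at this
      simp at this
      linarith [cc_im hτ hx, cc_im hτ hy]
    have hτ0 : τ ≠ 0 := by
      intro h; rw [h, norm_zero] at hτ; norm_num at hτ
    have nz : ∀ c d : ℂ, ‖c‖ < 1 → ‖d‖ < 1 → τ ^ 2 - c * d ≠ 0 := by
      intro c d hc hd h
      have h1 : τ ^ 2 = c * d := by linear_combination h
      have h2 := congrArg norm h1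
      rw [norm_pow, hτ, norm_mul] at h2
      nlinarith [norm_nonneg c, norm_nonneg d]
    have n1 := nz x y hx hy
    have n2 := nz x' y' hx' hy'
    rw [hxy] at hPs hKF ⊢
    simp only at hPs
    have hp : x' * y' = x * y := by
      have h3 := hPs.symm
      rw [div_eq_zero_iff] at h3
      rcases h3 with h3 | h3
      · have h4 : (I * K τ (x + y, x * y)) * (2 * τ ^ 2) ≠ 0 :=
          mul_ne_zero (mul_ne_zero hI hK0) (mul_ne_zero two_ne_zero (pow_ne_zero 2 hτ0))
        have h5 := (mul_eq_zero.1 h3).resolve_left h4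
        linear_combination h5
      · exact absurd h3 (mul_ne_zero n2 n1)
    have d1 : τ ^ 2 - τ * (x + y) + x * y ≠ 0 := by
      rw [den_eq]; exact mul_ne_zero (tau_sub_ne hτ hx) (tau_sub_ne hτ hy)
    have d2 : τ ^ 2 - τ * (x' + y') + x' * y' ≠ 0 := by
      rw [den_eq]; exact mul_ne_zero (tau_sub_ne hτ hx') (tau_sub_ne hτ hy')
    simp only [K] at hKF
    rw [div_eq_div_iff d2 d1, hp] at hKF
    have h6 : (2 * I * (τ ^ 2 - x * y) * τ) * (x' + y') = (2 * I * (τ ^ 2 - x * y) * τ) * (x + y) := by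
      linear_combination hKF
    have h7 := mul_left_cancel₀ (mul_ne_zero (mul_ne_zero (mul_ne_zero two_ne_zero hI) n1) hτ0) h6
    rw [h7, hp]
  · intro w2 h2
    have hz : DifferentiableOn ℂ (fun w1 : ℂ => zc τ (af μ w1)) {w | 0 < w.re} := by
      unfold zc af
      refine (DifferentiableOn.div (by fun_prop) (by fun_prop) fun w hw => ?_).const_mul τ
      exact addI_ne (af_im hμ hw)
    have hgd : DifferentiableOn ℂ (fun w1 : ℂ => g w1 w2) {w | 0 < w.re} :=
      (hz.add_const _).prodMk (hz.mul_const _)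
    have hPF : DifferentiableOn ℂ (fun w1 : ℂ => P τ (F (g w1 w2))) {w | 0 < w.re} :=
      (P_diff hτ).comp (hF.comp hgd fun w hw => hgG w w2 hw h2) fun w hw => hm (hgG w w2 hw h2)
    have haf : DifferentiableOn ℂ (fun w1 : ℂ => af μ w1) {w | 0 < w.re} := by
      unfold af
      fun_prop
    exact ((((hPF.sub ((haf.add_const _).const_mul _)).add_const _).neg).div_const _)
  · intro w1 w2 h1 h2
    have : g w1 w2 = g w2 w1 := by
      simp only [hg]
      rw [add_comm, mul_comm]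
    simp only [hY]
    rw [this, add_comm (af μ w1)]
  · intro w1 w2 h1 h2
    obtain ⟨x, y, hx, hy, hxy⟩ := hm (hgG w1 w2 h1 h2)
    have hk := hgK w1 w2 h1 h2
    rw [hxy, K_eq hτ hx hy] at hk
    have hre : ∀ η : ℂ, 0 < η.im → 0 < ((η - μ.re) / (I * μ.im)).re := by
      intro η hη
      have : ((η - μ.re) / (I * μ.im)).re = η.im / μ.im := by
        rw [Complex.div_re]
        simp [normSq_apply]
        field_simp
      rw [this]
      positivity
    refine ⟨(cc τ x - μ.re) / (I * μ.im), (cc τ y - μ.re) / (I * μ.im), hre _ (cc_im hτ hx),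
      hre _ (cc_im hτ hy), ?_, ?_⟩
    · simp only [af] at hk
      field_simp
      linear_combination hk
    · simp only [hY]
      rw [hxy, P_eq hτ hx hy, ← hk]
      field_simp
      linear_combination ((cc τ x - μ.re) * (cc τ y - μ.re)) * I_sq
  · have hb := bk_lim F hF hm τ lam hτ hlam ho
    rw [← hμd] at hb
    have hb2 := hb.mul_const (-(1 / (μ.im : ℂ) ^ 2))
    rw [zero_mul] at hb2
    refine hb2.congr' ?_
    filter_upwards [eventually_gt_atTop 0] with x hx0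
    have hxre : 0 < (x : ℂ).re := by simpa using hx0
    have e1 : g x 1 = (zc τ (af μ x) + lam, zc τ (af μ x) * lam) := by
      simp only [hg]
      rw [af_one, hμd, zc_cc hτ hlam]
    have e2 := hgP x 1 hxre (by simp)
    have hμe : μ = μ.re + I * μ.im := by apply Complex.ext <;> simp
    have e3 : af μ x * μ = -(μ.im : ℂ) ^ 2 * x - μ.re ^ 2 + μ.re * (af μ x + μ) := by
      rw [af]
      linear_combination (I * μ.im * x) * hμe + ((μ.im : ℂ) ^ 2 * x) * I_sq
    rw [← e1, e2]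
    simp only [hY]
    rw [af_one, e3]
    field_simp
    ring

end Pool.Agent.X31.BK
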