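import Pool.Agent.X31.BK.SP

set_option autoImplicit false

namespace Pool.Agent.X31.BK

open Filter Topology Set Complex Metric ComplexConjugate

noncomputable def zc (τ η : ℂ) : ℂ := τ * ((η - I) / (η + I))
noncomputable def cc (τ a : ℂ) : ℂ := I * (τ + a) / (τ - a)

theorem tau_sub_ne {τ a : ℂ} (hτ : ‖τ‖ = 1) (ha : ‖a‖ < 1) : τ - a ≠ 0 := by
  intro h
  have : τ = a := by linear_combination h
  rw [this] at hτ
  linarith

theorem addI_ne {η : ℂ} (h : 0 < η.im) : η + I ≠ 0 := by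
  intro hh
  have := congrArg Complex.im hh
  simp at this
  linarith

theorem zc_lt {τ η : ℂ} (hτ : ‖τ‖ = 1) (h : 0 < η.im) : ‖zc τ η‖ < 1 := by
  have h1 := ps_lt (v := I) h (by simp)
  rw [conj_I, sub_neg_eq_add] at h1
  rw [zc, norm_mul, hτ, one_mul]
  exact h1

theorem cc_im {τ a : ℂ} (hτ : ‖τ‖ = 1) (ha : ‖a‖ < 1) : 0 < (cc τ a).im := by
  have h1 : 0 < normSq (τ - a) := normSq_pos.2 (tau_sub_ne hτ ha)
  have h2 : normSq a < 1 := by
    rw [normSq_eq_norm_sq]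
    have := norm_nonneg a
    nlinarith
  have h4 : normSq τ = 1 := by rw [normSq_eq_norm_sq, hτ]; norm_num
  have h3 : (cc τ a).im = (normSq τ - normSq a) / normSq (τ - a) := by
    rw [cc, Complex.div_im, ← sub_div]
    congr 1
    simp [normSq_apply]
    ring
  rw [h3, h4]
  have : 0 < 1 - normSq a := by linarith
  positivity

theorem zc_cc {τ a : ℂ} (hτ : ‖τ‖ = 1) (ha : ‖a‖ < 1) : zc τ (cc τ a) = a := by
  have h1 := tau_sub_ne hτ ha
  have h2 := addI_ne (cc_im hτ ha)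
  have hI : (I : ℂ) ≠ 0 := I_ne_zero
  have h0 : τ ≠ 0 := by intro h; rw [h] at hτ; simp at hτ
  have e1 : cc τ a - I = 2 * I * a / (τ - a) := by
    rw [cc]; field_simp; ring
  have e2 : cc τ a + I = 2 * I * τ / (τ - a) := by
    rw [cc]; field_simp; ring
  rw [zc, e1, e2]
  field_simp

theorem den_eq (τ a b : ℂ) : τ ^ 2 - τ * (a + b) + a * b = (τ - a) * (τ - b) := by ring

theorem K_eq {τ a b : ℂ} (hτ : ‖τ‖ = 1) (ha : ‖a‖ < 1) (hb : ‖b‖ < 1) :
    K τ (a + b, a * b) = cc τ a + cc τ b := by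
  have h1 := tau_sub_ne hτ ha
  have h2 := tau_sub_ne hτ hb
  simp only [K, cc, den_eq]
  field_simp
  ring

/-- the magic function is preserved, half plane form -/
theorem K_pres (hASY : S_ASY) (F : ℂ × ℂ → ℂ × ℂ) (hF : DifferentiableOn ℂ F G2)
    (hm : MapsTo F G2 G2) (τ lam : ℂ) (hτ : ‖τ‖ = 1) (hlam : ‖lam‖ < 1)
    (ho : (fun w => F w - w) =o[𝓝[G2] (τ + lam, τ * lam)]
      (fun w => ‖w - (τ + lam, τ * lam)‖ ^ 3)) {a b : ℂ} (ha : ‖a‖ < 1) (hb : ‖b‖ < 1) :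
    K τ (F (a + b, a * b)) = K τ (a + b, a * b) := by
  set g : ℂ × ℂ → ℂ × ℂ := fun η => (zc τ η.1 + zc τ η.2, zc τ η.1 * zc τ η.2) with hg
  have hgm : MapsTo g {p : ℂ × ℂ | 0 < p.1.im ∧ 0 < p.2.im} G2 := fun η h =>
    ⟨zc τ η.1, zc τ η.2, zc_lt hτ h.1, zc_lt hτ h.2, rfl⟩
  have hz1 : DifferentiableOn ℂ (fun η : ℂ × ℂ => zc τ η.1) {p | 0 < p.1.im ∧ 0 < p.2.im} := by
    unfold zc
    exact (dOn_div (by fun_prop) (by fun_prop) fun z h => addI_ne h.1).const_mul τ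
  have hz2 : DifferentiableOn ℂ (fun η : ℂ × ℂ => zc τ η.2) {p | 0 < p.1.im ∧ 0 < p.2.im} := by
    unfold zc
    exact (dOn_div (by fun_prop) (by fun_prop) fun z h => addI_ne h.2).const_mul τ
  have hgd : DifferentiableOn ℂ g {p | 0 < p.1.im ∧ 0 < p.2.im} :=
    (hz1.add hz2).prodMk (hz1.mul hz2)
  have hK : DifferentiableOn ℂ (K τ) G2 := by
    unfold K
    refine dOn_div (by fun_prop) (by fun_prop) ?_
    rintro w ⟨x, y, hx, hy, rfl⟩
    simp only
    rw [den_eq]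
    exact mul_ne_zero (tau_sub_ne hτ hx) (tau_sub_ne hτ hy)
  have hRd : DifferentiableOn ℂ (fun η => K τ (F (g η))) {p | 0 < p.1.im ∧ 0 < p.2.im} :=
    hK.comp (hF.comp hgd hgm) (hm.comp hgm)
  have hRp : ∀ p : ℂ × ℂ, 0 < p.1.im → 0 < p.2.im → 0 ≤ (K τ (F (g p))).im := by
    intro p h1 h2
    obtain ⟨x, y, hx, hy, hxy⟩ := hm (hgm (show p ∈ {p : ℂ × ℂ | 0 < p.1.im ∧ 0 < p.2.im} from ⟨h1, h2⟩))
    rw [hxy, K_eq hτ hx hy, add_im]
    exact (add_pos (cc_im hτ hx) (cc_im hτ hy)).le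
  have hRs : ∀ p : ℂ × ℂ, 0 < p.1.im → 0 < p.2.im → K τ (F (g (p.2, p.1))) = K τ (F (g p)) := by
    intro p _ _
    have : g (p.2, p.1) = g p := by
      simp only [hg]
      rw [add_comm, mul_comm]
    rw [this]
  have hμ := cc_im hτ hlam
  have hasy := hASY F τ lam hτ hlam ho
  have h0 : τ ≠ 0 := by intro h; rw [h] at hτ; simp at hτ
  have hl : Tendsto (fun T : ℝ => (T : ℂ) * (K τ (F (g (I * T, cc τ lam))) -
      (I * T + cc τ lam))) atTop (𝓝 0) := by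
    refine hasy.congr' ?_
    filter_upwards [eventually_gt_atTop 0] with T hT
    have hT1 : (T : ℂ) + 1 ≠ 0 := by
      have : (0 : ℝ) < T + 1 := by linarith
      exact_mod_cast this.ne'
    have e1 : zc τ (I * T) = zT τ T := by
      have hI : (I : ℂ) ≠ 0 := I_ne_zero
      have : I * (T : ℂ) + I ≠ 0 := by
        have h : I * (T : ℂ) + I = I * (T + 1) := by ring
        rw [h]
        exact mul_ne_zero hI hT1
      rw [zc, zT]
      congr 1
      field_simp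
    have e2 : ‖zT τ T‖ < 1 := by
      rw [← e1]
      exact zc_lt hτ (by simp [hT])
    have e3 : cc τ (zT τ T) = I * T := by
      have h1 := tau_sub_ne hτ e2
      rw [cc, div_eq_iff h1, zT]
      field_simp
      ring
    have e4 : g (I * T, cc τ lam) = (zT τ T + lam, zT τ T * lam) := by
      simp only [hg]
      rw [e1, zc_cc hτ hlam]
    rw [e4, K_eq hτ e2 hlam, e3]
  have key := rigid (R := fun η => K τ (F (g η))) hRd hRp hRs hμ hl (η := (cc τ a, cc τ b))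
    (cc_im hτ ha) (cc_im hτ hb)
  have e5 : g (cc τ a, cc τ b) = (a + b, a * b) := by
    simp only [hg]
    rw [zc_cc hτ ha, zc_cc hτ hb]
  simp only [e5] at key
  rw [key, K_eq hτ ha hb]

/-- the magic function -/
noncomputable def Φ (ω : ℂ) (w : ℂ × ℂ) : ℂ := (2 * ω * w.2 - w.1) / (2 - ω * w.1)

theorem two_sub_ne {ω a b : ℂ} (hω : ‖ω‖ = 1) (ha : ‖a‖ < 1) (hb : ‖b‖ < 1) :
    2 - ω * (a + b) ≠ 0 := by
  intro h
  have h1 : ω * (a + b) = 2 := by linear_combination -h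
  have h2 := congrArg norm h1
  rw [norm_mul, hω, one_mul] at h2
  have h3 := norm_add_le a b
  have : ‖(2 : ℂ)‖ = 2 := by simp
  linarith

theorem main (hASY : S_ASY) (F : ℂ × ℂ → ℂ × ℂ) (hF : DifferentiableOn ℂ F G2)
    (hm : MapsTo F G2 G2) (τ lam : ℂ) (hτ : ‖τ‖ = 1) (hlam : ‖lam‖ < 1)
    (ho : (fun w => F w - w) =o[𝓝[G2] (τ + lam, τ * lam)]
      (fun w => ‖w - (τ + lam, τ * lam)‖ ^ 3)) :
    ∀ w ∈ G2, Φ (conj τ) (F w) = Φ (conj τ) w := by
  rintro w ⟨a, b, ha, hb, rfl⟩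
  have hK := K_pres hASY F hF hm τ lam hτ hlam ho ha hb
  obtain ⟨x, y, hx, hy, hxy⟩ := hm (show (a + b, a * b) ∈ G2 from ⟨a, b, ha, hb, rfl⟩)
  rw [hxy] at hK ⊢
  have hc : ‖conj τ‖ = 1 := by rw [RCLike.norm_conj, hτ]
  have h1 := two_sub_ne hc ha hb
  have h2 := two_sub_ne hc hx hy
  have hττ : τ * conj τ = 1 := by
    rw [mul_conj, normSq_eq_norm_sq, hτ]; simp
  have d1 : τ ^ 2 - τ * (a + b) + a * b ≠ 0 := by
    rw [den_eq]; exact mul_ne_zero (tau_sub_ne hτ ha) (tau_sub_ne hτ hb)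
  have d2 : τ ^ 2 - τ * (x + y) + x * y ≠ 0 := by
    rw [den_eq]; exact mul_ne_zero (tau_sub_ne hτ hx) (tau_sub_ne hτ hy)
  have hI : (I : ℂ) ≠ 0 := I_ne_zero
  have h0 : τ ≠ 0 := by intro h; rw [h] at hτ; simp at hτ
  simp only [K] at hK
  rw [div_eq_div_iff d2 d1] at hK
  have hK2 : (τ ^ 2 - x * y) * (τ ^ 2 - τ * (a + b) + a * b) =
      (τ ^ 2 - a * b) * (τ ^ 2 - τ * (x + y) + x * y) := by
    have : (2 * I) * ((τ ^ 2 - x * y) * (τ ^ 2 - τ * (a + b) + a * b)) =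
        (2 * I) * ((τ ^ 2 - a * b) * (τ ^ 2 - τ * (x + y) + x * y)) := by
      linear_combination hK
    exact mul_left_cancel₀ (by simp) this
  simp only [Φ]
  rw [div_eq_div_iff h2 h1]
  set ω := conj τ
  have hY : -τ ^ 2 * (a + b) + 2 * τ * (a * b) - 2 * τ * (x * y) + (a + b) * (x * y) +
      τ ^ 2 * (x + y) - (a * b) * (x + y) = 0 := by
    apply mul_left_cancel₀ h0
    linear_combination hK2
  have f1 : ∀ s p : ℂ, 2 * ω * p - s = ω * (2 * p - τ * s) := by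
    intro s p
    linear_combination s * hττ
  have f2 : ∀ s : ℂ, 2 - ω * s = ω * (2 * τ - s) := by
    intro s
    linear_combination (-2 : ℂ) * hττ
  rw [f1, f1, f2, f2]
  linear_combination (-2 * ω ^ 2) * hY

end Pool.Agent.X31.BK
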