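import Pool.Agent.X31.BK.Stm

/-! Schwarz-Pick for maps from the product of two half planes, and Julia's lemma. -/

set_option autoImplicit false

namespace Pool.Agent.X31.BK

open Filter Topology Set Complex Metric ComplexConjugate

theorem dOn_div {f g : ℂ × ℂ → ℂ} {s : Set (ℂ × ℂ)} (hf : DifferentiableOn ℂ f s)
    (hg : DifferentiableOn ℂ g s) (h0 : ∀ z ∈ s, g z ≠ 0) :
    DifferentiableOn ℂ (fun z => f z / g z) s := by
  simp only [div_eq_mul_inv]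
  exact hf.mul (hg.inv h0)

/-- the disc parametrised by the half plane -/
noncomputable def Cy (ξ z : ℂ) : ℂ := (ξ - conj ξ * z) / (1 - z)

theorem one_sub_ne {z : ℂ} (hz : ‖z‖ < 1) : 1 - z ≠ 0 := by
  intro h
  have h1 : z = 1 := by linear_combination -h
  rw [h1] at hz
  simp at hz

theorem Cy_im {ξ z : ℂ} (hξ : 0 < ξ.im) (hz : ‖z‖ < 1) : 0 < (Cy ξ z).im := by
  have h1 : 0 < normSq (1 - z) := normSq_pos.2 (one_sub_ne hz)
  have h2 : normSq z < 1 := by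
    rw [normSq_eq_norm_sq]
    have := norm_nonneg z
    nlinarith
  have h3 : (Cy ξ z).im = ξ.im * (1 - normSq z) / normSq (1 - z) := by
    rw [Cy, Complex.div_im, ← sub_div]
    congr 1
    simp [normSq_apply]
    ring
  rw [h3]
  have : 0 < 1 - normSq z := by linarith
  positivity

theorem nrm_id (u v : ℂ) : ‖u - conj v‖ ^ 2 - ‖u - v‖ ^ 2 = 4 * u.im * v.im := by
  rw [← normSq_eq_norm_sq, ← normSq_eq_norm_sq]
  simp [normSq_apply]
  ring

theorem sub_conj_ne {u v : ℂ} (hu : 0 < u.im) (hv : 0 < v.im) : u - conj v ≠ 0 := by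
  intro h
  have := congrArg Complex.im h
  simp at this
  linarith

theorem ps_lt {u v : ℂ} (hu : 0 < u.im) (hv : 0 < v.im) : ‖(u - v) / (u - conj v)‖ < 1 := by
  rw [norm_div, div_lt_one (norm_pos_iff.2 (sub_conj_ne hu hv))]
  have h := nrm_id u v
  have h2 : 0 < 4 * u.im * v.im := by positivity
  have h3 := norm_nonneg (u - v)
  have h4 := norm_nonneg (u - conj v)
  nlinarith

theorem Cy_inv {ξ η : ℂ} (hξ : 0 < ξ.im) (hη : 0 < η.im) :
    Cy ξ ((η - ξ) / (η - conj ξ)) = η := by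
  have h1 := sub_conj_ne hη hξ
  have h2 := one_sub_ne (ps_lt hη hξ)
  rw [Cy, div_eq_iff h2]
  field_simp
  ring

theorem sp {R : ℂ × ℂ → ℂ} (hd : DifferentiableOn ℂ R {p | 0 < p.1.im ∧ 0 < p.2.im})
    (hR : ∀ p : ℂ × ℂ, 0 < p.1.im → 0 < p.2.im → 0 < (R p).im) {ξ η : ℂ × ℂ}
    (hξ1 : 0 < ξ.1.im) (hξ2 : 0 < ξ.2.im) (hη1 : 0 < η.1.im) (hη2 : 0 < η.2.im) :
    ‖(R η - R ξ) / (R η - conj (R ξ))‖ ≤
      max ‖(η.1 - ξ.1) / (η.1 - conj ξ.1)‖ ‖(η.2 - ξ.2) / (η.2 - conj ξ.2)‖ := by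
  set g : ℂ × ℂ → ℂ × ℂ := fun z => (Cy ξ.1 z.1, Cy ξ.2 z.2) with hg
  set f : ℂ × ℂ → ℂ := fun z => (R (g z) - R ξ) / (R (g z) - conj (R ξ)) with hf
  have hz : ∀ z ∈ ball (0 : ℂ × ℂ) 1, ‖z.1‖ < 1 ∧ ‖z.2‖ < 1 := by
    intro z hz
    rw [mem_ball_zero_iff] at hz
    exact ⟨(norm_fst_le z).trans_lt hz, (norm_snd_le z).trans_lt hz⟩
  have hgm : MapsTo g (ball 0 1) {p | 0 < p.1.im ∧ 0 < p.2.im} := fun z h =>
    ⟨Cy_im hξ1 (hz z h).1, Cy_im hξ2 (hz z h).2⟩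
  have hgd : DifferentiableOn ℂ g (ball 0 1) := by
    refine DifferentiableOn.prodMk ?_ ?_
    · unfold Cy
      exact dOn_div (by fun_prop) (by fun_prop) fun z h => one_sub_ne (hz z h).1
    · unfold Cy
      exact dOn_div (by fun_prop) (by fun_prop) fun z h => one_sub_ne (hz z h).2
  have hRg : DifferentiableOn ℂ (fun z => R (g z)) (ball 0 1) := hd.comp hgd hgm
  have hpos : ∀ z ∈ ball (0 : ℂ × ℂ) 1, 0 < (R (g z)).im := fun z h =>
    hR _ (hgm h).1 (hgm h).2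
  have hξR : 0 < (R ξ).im := hR ξ hξ1 hξ2
  have hfd : DifferentiableOn ℂ f (ball 0 1) := by
    exact dOn_div (hRg.sub_const _) (hRg.sub_const _) fun z h =>
      sub_conj_ne (hpos z h) hξR
  have hfm : MapsTo f (ball 0 1) (closedBall 0 1) := fun z h => by
    rw [mem_closedBall_zero_iff]
    exact (ps_lt (hpos z h) hξR).le
  have hf0 : f 0 = 0 := by
    simp [hf, hg, Cy]
  set w : ℂ × ℂ := ((η.1 - ξ.1) / (η.1 - conj ξ.1), (η.2 - ξ.2) / (η.2 - conj ξ.2)) with hw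
  have hwn : ‖w‖ = max ‖(η.1 - ξ.1) / (η.1 - conj ξ.1)‖ ‖(η.2 - ξ.2) / (η.2 - conj ξ.2)‖ := rfl
  have hw1 : ‖w‖ < 1 := by
    rw [hwn]
    exact max_lt (ps_lt hη1 hξ1) (ps_lt hη2 hξ2)
  have hgw : g w = η := by
    simp only [hg, hw]
    rw [Cy_inv hξ1 hη1, Cy_inv hξ2 hη2]
  have key := norm_le_norm_of_mapsTo_ball hfd hfm hf0 hw1
  rw [hwn] at key
  simpa [hf, hgw] using key

theorem t0 (η1 : ℂ) : Tendsto (fun T : ℝ => η1 / (T : ℂ)) atTop (𝓝 0) := by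
  have h1 : Tendsto (fun T : ℝ => ((T⁻¹ : ℝ) : ℂ)) atTop (𝓝 ((0 : ℝ) : ℂ)) :=
    (continuous_ofReal.tendsto 0).comp tendsto_inv_atTop_zero
  have h2 := h1.const_mul η1
  simp only [ofReal_zero, mul_zero] at h2
  refine h2.congr fun T => ?_
  rw [ofReal_inv, div_eq_mul_inv]

theorem ev (η1 : ℂ) : Tendsto (fun T : ℝ => ‖(η1 - I * T) / (η1 + I * T)‖) atTop (𝓝 1) := by
  have h1 : Tendsto (fun T : ℝ => (η1 / T - I) / (η1 / T + I)) atTop (𝓝 ((0 - I) / (0 + I))) :=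
    ((t0 η1).sub_const I).div ((t0 η1).add_const I) (by simp)
  have h2 := h1.norm
  have h3 : ‖((0 : ℂ) - I) / (0 + I)‖ = 1 := by simp
  rw [h3] at h2
  refine h2.congr' ?_
  filter_upwards [eventually_gt_atTop 0] with T hT
  have hT' : (T : ℂ) ≠ 0 := by exact_mod_cast hT.ne'
  congr 1
  have e1 : η1 / T - I = (η1 - I * T) / T := by field_simp
  have e2 : η1 / T + I = (η1 + I * T) / T := by field_simp
  rw [e1, e2, div_div_div_cancel_right₀ hT']

theorem ev2 (η1 : ℂ) : Tendsto (fun T : ℝ => ‖η1 + I * T‖ ^ 2 / T ^ 2) atTop (𝓝 1) := by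
  have h2 := (((t0 η1).add_const I).norm).pow 2
  simp only [zero_add, norm_I, one_pow] at h2
  refine h2.congr' ?_
  filter_upwards [eventually_gt_atTop 0] with T hT
  have hT' : (T : ℂ) ≠ 0 := by exact_mod_cast hT.ne'
  have e2 : η1 / T + I = (η1 + I * T) / T := by field_simp
  rw [e2, norm_div, div_pow, norm_real, Real.norm_of_nonneg hT.le]

/-- the inequality with strict positivity -/
theorem spt0 {R : ℂ × ℂ → ℂ} (hd : DifferentiableOn ℂ R {p | 0 < p.1.im ∧ 0 < p.2.im})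
    (hR : ∀ p : ℂ × ℂ, 0 < p.1.im → 0 < p.2.im → 0 < (R p).im) {μ : ℂ} (hμ : 0 < μ.im)
    {η : ℂ × ℂ} (hη1 : 0 < η.1.im) (hη2 : 0 < η.2.im) {T : ℝ} (hT : 0 < T)
    (hm : ‖(η.2 - μ) / (η.2 - conj μ)‖ ≤ ‖(η.1 - I * T) / (η.1 + I * T)‖) :
    T * η.1.im * ‖R η - conj (R (I * T, μ))‖ ^ 2 ≤
      (R η).im * (R (I * T, μ)).im * ‖η.1 + I * T‖ ^ 2 := by
  have hI : 0 < (I * (T : ℂ)).im := by simp [hT]
  have h := sp hd hR (ξ := (I * T, μ)) (η := η) hI hμ hη1 hη2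
  have hcj : conj (I * (T : ℂ)) = -(I * T) := by simp
  simp only [hcj, sub_neg_eq_add] at h
  rw [max_eq_left hm] at h
  have hB : η.1 + I * T ≠ 0 := by
    intro hh
    have := congrArg Complex.im hh
    simp at this
    linarith
  have hA : R η - conj (R (I * T, μ)) ≠ 0 := sub_conj_ne (hR η hη1 hη2) (hR _ hI hμ)
  have hBn : 0 < ‖η.1 + I * T‖ := norm_pos_iff.2 hB
  have hAn : 0 < ‖R η - conj (R (I * T, μ))‖ := norm_pos_iff.2 hA
  rw [norm_div, norm_div, div_le_div_iff₀ hAn hBn] at h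
  have h2 : (‖R η - R (I * T, μ)‖ * ‖η.1 + I * T‖) ^ 2 ≤
      (‖η.1 - I * T‖ * ‖R η - conj (R (I * T, μ))‖) ^ 2 :=
    pow_le_pow_left₀ (by positivity) h 2
  rw [mul_pow, mul_pow] at h2
  have i1 := nrm_id (R η) (R (I * T, μ))
  have i2 := nrm_id η.1 (I * T)
  rw [hcj, sub_neg_eq_add] at i2
  have i3 : (I * (T : ℂ)).im = T := by simp
  rw [i3] at i2
  have e1 : ‖R η - R (I * T, μ)‖ ^ 2 = ‖R η - conj (R (I * T, μ))‖ ^ 2 -
      4 * (R η).im * (R (I * T, μ)).im := by linarith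
  have e2 : ‖η.1 - I * T‖ ^ 2 = ‖η.1 + I * T‖ ^ 2 - 4 * η.1.im * T := by linarith
  rw [e1, e2] at h2
  nlinarith

/-- the inequality with nonnegativity -/
theorem spt {R : ℂ × ℂ → ℂ} (hd : DifferentiableOn ℂ R {p | 0 < p.1.im ∧ 0 < p.2.im})
    (hR : ∀ p : ℂ × ℂ, 0 < p.1.im → 0 < p.2.im → 0 ≤ (R p).im) {μ : ℂ} (hμ : 0 < μ.im)
    {η : ℂ × ℂ} (hη1 : 0 < η.1.im) (hη2 : 0 < η.2.im) : ∀ᶠ T : ℝ in atTop,
    T * η.1.im * ‖R η - conj (R (I * T, μ))‖ ^ 2 ≤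
      (R η).im * (R (I * T, μ)).im * ‖η.1 + I * T‖ ^ 2 := by
  have hc := ps_lt hη2 hμ
  filter_upwards [eventually_gt_atTop 0, (ev η.1).eventually (eventually_gt_nhds hc)] with T hT hm
  have hI : 0 < (I * (T : ℂ)).im := by simp [hT]
  have hε : ∀ ε : ℝ, 0 < ε →
      T * η.1.im * ‖(R η + I * ε) - conj (R (I * T, μ) + I * ε)‖ ^ 2 ≤
      (R η + I * ε).im * (R (I * T, μ) + I * ε).im * ‖η.1 + I * T‖ ^ 2 := by
    intro ε hε
    refine spt0 (R := fun p => R p + I * ε) (hd.add_const _) ?_ hμ hη1 hη2 hT hm.le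
    intro p h1 h2
    have := hR p h1 h2
    simp
    linarith
  have c1 : Continuous fun ε : ℝ =>
      T * η.1.im * ‖(R η + I * ε) - conj (R (I * T, μ) + I * ε)‖ ^ 2 := by
    simp only [map_add, map_mul, conj_I, conj_ofReal]
    fun_prop
  have c2 : Continuous fun ε : ℝ =>
      (R η + I * ε).im * (R (I * T, μ) + I * ε).im * ‖η.1 + I * T‖ ^ 2 := by
    simp only [add_im, mul_im, I_re, I_im, ofReal_re, ofReal_im]
    fun_prop
  have l1 := (c1.tendsto 0).mono_left (nhdsWithin_le_nhds (s := Ioi 0))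
  have l2 := (c2.tendsto 0).mono_left (nhdsWithin_le_nhds (s := Ioi 0))
  have := le_of_tendsto_of_tendsto l1 l2 (eventually_nhdsWithin_of_forall fun ε h => hε ε h)
  simpa using this

/-- Julia's lemma -/
theorem julia {R : ℂ × ℂ → ℂ} (hd : DifferentiableOn ℂ R {p | 0 < p.1.im ∧ 0 < p.2.im})
    (hR : ∀ p : ℂ × ℂ, 0 < p.1.im → 0 < p.2.im → 0 ≤ (R p).im) {μ : ℂ} (hμ : 0 < μ.im)
    (hl : Tendsto (fun T : ℝ => R (I * T, μ) / T) atTop (𝓝 I))
    {η : ℂ × ℂ} (hη1 : 0 < η.1.im) (hη2 : 0 < η.2.im) : η.1.im ≤ (R η).im := by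
  have h := spt hd hR hμ hη1 hη2
  have a1 : Tendsto (fun T : ℝ => η.1.im * ‖R η / T - conj (R (I * T, μ) / T)‖ ^ 2) atTop
      (𝓝 (η.1.im * ‖0 - conj I‖ ^ 2)) :=
    ((((t0 (R η)).sub ((continuous_conj.tendsto I).comp hl)).norm).pow 2).const_mul _
  have a2 : Tendsto (fun T : ℝ => (R η).im * (R (I * T, μ) / T).im *
      (‖η.1 + I * T‖ ^ 2 / T ^ 2)) atTop (𝓝 ((R η).im * I.im * 1)) :=
    (((continuous_im.tendsto I).comp hl).const_mul _).mul (ev2 η.1)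
  have := le_of_tendsto_of_tendsto a1 a2 (by
    filter_upwards [h, eventually_gt_atTop 0] with T h hT
    have hT' : (T : ℂ) ≠ 0 := by exact_mod_cast hT.ne'
    have e1 : R η / T - conj (R (I * T, μ) / T) = (R η - conj (R (I * T, μ))) / T := by
      rw [map_div₀, conj_ofReal, sub_div]
    have e2 : (R (I * T, μ) / T).im = (R (I * T, μ)).im / T := div_ofReal_im _ _
    rw [e1, e2, norm_div, norm_real, Real.norm_of_nonneg hT.le, div_pow]
    have e3 : η.1.im * (‖R η - conj (R (I * T, μ))‖ ^ 2 / T ^ 2) =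
        T * η.1.im * ‖R η - conj (R (I * T, μ))‖ ^ 2 / T ^ 3 := by
      field_simp
    have e4 : (R η).im * ((R (I * T, μ)).im / T) * (‖η.1 + I * T‖ ^ 2 / T ^ 2) =
        (R η).im * (R (I * T, μ)).im * ‖η.1 + I * T‖ ^ 2 / T ^ 3 := by
      field_simp
    rw [e3, e4]
    exact div_le_div_of_nonneg_right h (by positivity))
  simpa using this

/-- the rigidity theorem on the product of two half planes -/
theorem rigid {R : ℂ × ℂ → ℂ} (hd : DifferentiableOn ℂ R {p | 0 < p.1.im ∧ 0 < p.2.im})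
    (hR : ∀ p : ℂ × ℂ, 0 < p.1.im → 0 < p.2.im → 0 ≤ (R p).im)
    (hs : ∀ p : ℂ × ℂ, 0 < p.1.im → 0 < p.2.im → R (p.2, p.1) = R p) {μ : ℂ} (hμ : 0 < μ.im)
    (hl : Tendsto (fun T : ℝ => (T : ℂ) * (R (I * T, μ) - (I * T + μ))) atTop (𝓝 0))
    {η : ℂ × ℂ} (hη1 : 0 < η.1.im) (hη2 : 0 < η.2.im) : R η = η.1 + η.2 := by
  -- the difference tends to zero
  have hl0 : Tendsto (fun T : ℝ => R (I * T, μ) - (I * T + μ)) atTop (𝓝 0) := by
    have h1 := (t0 1).mul hl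
    simp only [mul_zero] at h1
    refine h1.congr' ?_
    filter_upwards [eventually_gt_atTop 0] with T hT
    have hT' : (T : ℂ) ≠ 0 := by exact_mod_cast hT.ne'
    field_simp
  have hT1 : ∀ c : ℂ, Tendsto (fun T : ℝ => (R (I * T, μ) + c) / T) atTop (𝓝 I) := by
    intro c
    have h1 : Tendsto (fun T : ℝ => (1 : ℂ) / T * (R (I * T, μ) - (I * T + μ)) + (μ + c) / T + I)
        atTop (𝓝 (0 * 0 + 0 + I)) := (((t0 1).mul hl0).add (t0 (μ + c))).add_const I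
    simp only [mul_zero, zero_add] at h1
    refine h1.congr' ?_
    filter_upwards [eventually_gt_atTop 0] with T hT
    have hT' : (T : ℂ) ≠ 0 := by exact_mod_cast hT.ne'
    field_simp
    ring
  have j1 : ∀ p : ℂ × ℂ, 0 < p.1.im → 0 < p.2.im → p.1.im ≤ (R p).im := fun p h1 h2 =>
    julia hd hR hμ (by simpa using hT1 0) h1 h2
  have j2 : ∀ p : ℂ × ℂ, 0 < p.1.im → 0 < p.2.im → 0 ≤ (R p - p.2).im := by
    intro p h1 h2
    have := j1 (p.2, p.1) h2 h1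
    rw [hs p h1 h2] at this
    rw [sub_im]
    simp only at this
    linarith
  have j3 : ∀ p : ℂ × ℂ, 0 < p.1.im → 0 < p.2.im → p.1.im ≤ (R p - p.2).im := fun p h1 h2 =>
    julia (R := fun p => R p - p.2) (hd.sub (by fun_prop)) j2 hμ
      (by simpa [sub_eq_add_neg] using hT1 (-μ)) h1 h2
  have j4 : ∀ p : ℂ × ℂ, 0 < p.1.im → 0 < p.2.im → 0 ≤ (R p - p.2 - p.1).im := by
    intro p h1 h2
    have := j3 p h1 h2
    rw [sub_im (R p - p.2)]
    linarith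
  have h := spt (R := fun p => R p - p.2 - p.1) ((hd.sub (by fun_prop)).sub (by fun_prop)) j4 hμ
    hη1 hη2
  set E : ℂ := R η - η.2 - η.1 with hE
  have hlE : Tendsto (fun T : ℝ => R (I * T, μ) - μ - I * T) atTop (𝓝 0) :=
    hl0.congr fun T => by ring
  have hlT : Tendsto (fun T : ℝ => ((T : ℂ) * (R (I * T, μ) - μ - I * T)).im) atTop (𝓝 0) := by
    have := (continuous_im.tendsto (0 : ℂ)).comp hl
    simp only [zero_im] at this
    refine this.congr fun T => ?_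
    simp only [Function.comp]
    congr 1
    ring
  have a1 : Tendsto (fun T : ℝ => η.1.im * ‖E - conj (R (I * T, μ) - μ - I * T)‖ ^ 2) atTop
      (𝓝 (η.1.im * ‖E - conj 0‖ ^ 2)) :=
    (((((continuous_conj.tendsto 0).comp hlE).const_sub E).norm).pow 2).const_mul _
  have a2 : Tendsto (fun T : ℝ => E.im * ((T : ℂ) * (R (I * T, μ) - μ - I * T)).im *
      (‖η.1 + I * T‖ ^ 2 / T ^ 2)) atTop (𝓝 (E.im * 0 * 1)) :=
    (hlT.const_mul _).mul (ev2 η.1)
  have key := le_of_tendsto_of_tendsto a1 a2 (by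
    filter_upwards [h, eventually_gt_atTop 0] with T h hT
    have e2 : ((T : ℂ) * (R (I * T, μ) - μ - I * T)).im =
        T * (R (I * T, μ) - μ - I * T).im := by
      rw [mul_im, ofReal_re, ofReal_im]; ring
    rw [e2]
    have e3 : η.1.im * ‖E - conj (R (I * T, μ) - μ - I * T)‖ ^ 2 =
        T * η.1.im * ‖E - conj (R (I * T, μ) - μ - I * T)‖ ^ 2 / T := by
      field_simp
    have e4 : E.im * (T * (R (I * T, μ) - μ - I * T).im) * (‖η.1 + I * T‖ ^ 2 / T ^ 2) =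
        E.im * (R (I * T, μ) - μ - I * T).im * ‖η.1 + I * T‖ ^ 2 / T := by
      field_simp
    rw [e3, e4]
    exact div_le_div_of_nonneg_right h hT.le)
  simp only [map_zero, sub_zero, mul_zero, zero_mul] at key
  have : ‖E‖ = 0 := by
    by_contra hne
    have : 0 < ‖E‖ := lt_of_le_of_ne (norm_nonneg _) (Ne.symm hne)
    have : 0 < η.1.im * ‖E‖ ^ 2 := by positivity
    linarith
  have h0 : E = 0 := norm_eq_zero.1 this
  rw [hE] at h0
  linear_combination h0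

end Pool.Agent.X31.BK
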